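import Mathlib
import Pool.Agent.LNK.Common

/-!
(2k+1)-connected graphs with 2k - 2 vertices that have 3k common neighbours are k-linked.
-/

set_option autoImplicit false

namespace Pool.Agent.Results.MP_e4231c_co.CommonNeighbours

open SimpleGraph Pool.Agent.LNK

open Classical in
/-- Every finite `(2k+1)`-connected graph `G` that has a set `A` of `2k - 2` vertices with at least `3k` common
neighbours is `k`-linked. -/
theorem result : ∀ (k : ℕ) (V : Type) [Fintype V] (G : SimpleGraph V),
    (2 * k + 1 < Fintype.card V ∧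
      ∀ S : Finset V, S.card < 2 * k + 1 → (G.induce ((S : Set V)ᶜ)).Connected) →
    ∀ A U : Finset V, A.card + 2 = 2 * k → 3 * k ≤ U.card → (∀ a ∈ A, ∀ u ∈ U, G.Adj a u) →
    ∀ s t : Fin k → V, Function.Injective (Sum.elim s t) →
      ∃ p : ∀ i, G.Walk (s i) (t i),
        (∀ i, (p i).IsPath) ∧
        ∀ i j, i ≠ j → ∀ v, v ∈ (p i).support → v ∉ (p j).support := by
  intro k V _ G hG A U hA hU hAU s t hst
  have hcon : ∀ Z : Finset V, Z.card < 2 * k + 1 → ∀ u v, u ∉ Z → v ∉ Z → Jn G {v | v ∉ Z} u v := by
    intro Z hZ u v hu hv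
    exact jn_of_connected (hG.2 Z hZ) (by simpa using hu) (by simpa using hv)
  have hdj : ∀ v, v ∈ A → v ∉ U := fun v hv hv' => (hAU v hv v hv').ne rfl
  have hcard : Fintype.card (Fin k ⊕ Fin k) = 2 * k := by
    rw [Fintype.card_sum, Fintype.card_fin]
    omega
  have hcardAU : (A ∪ U).card = A.card + U.card :=
    Finset.card_union_of_disjoint (Finset.disjoint_left.2 hdj)
  by_cases hf : ∃ h ∈ A, ∀ y, Sum.elim s t y ≠ h
  · -- a hub that is no terminal
    obtain ⟨h, hhA, hh⟩ := hf
    obtain ⟨P, τ, h1, h2, h3, h4, h5, h6, h7⟩ := tokens (G := G) {h} ((A ∪ U).erase h) (Sum.elim s t) hst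
      (fun y => by simpa using hh y) (fun v hv => by simpa using (Finset.mem_erase.1 hv).1) (by
        rw [hcard, Finset.card_erase_of_mem (Finset.mem_union_left _ hhA), hcardAU]
        omega) (fun Z hZ => hcon Z (by rw [hcard, Finset.card_singleton] at hZ; exact hZ))
    have hPh : ∀ y, h ∉ P y := fun y hy => h6 y h hy (Finset.mem_singleton_self _)
    have hτh : ∀ y, τ y ≠ h := fun y hy => hPh y (hy ▸ h2 y)
    have hτ : ∀ y, τ y ∈ A ∨ τ y ∈ U := fun y => Finset.mem_union.1 (Finset.mem_of_mem_erase (h3 y))
    have hinj : Function.Injective τ := by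
      intro y y' hyy
      by_contra hne
      exact h7 y y' hne (τ y) (h2 y) (hyy ▸ h2 y')
    refine join_tokens A U hAU s t P τ h1 h2 hτ ?_ h5 h7 hU ?_
    · intro y v hv hvAU
      refine h4 y v hv (Finset.mem_erase.2 ⟨?_, Finset.mem_union.2 hvAU⟩)
      rintro rfl
      exact hPh y hv
    · set Q := Finset.univ.filter fun i : Fin k => τ (Sum.inl i) ∈ U ∧ τ (Sum.inr i) ∈ U with hQ
      have e1 : (Finset.univ.filter fun y => τ y ∈ A).card + (Finset.univ.filter fun y => ¬ τ y ∈ A).card =
          (Finset.univ : Finset (Fin k ⊕ Fin k)).card := Finset.card_filter_add_card_filter_not _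
      rw [Finset.card_univ, hcard] at e1
      have e2 : (Q.disjSum Q).card ≤ (Finset.univ.filter fun y => ¬ τ y ∈ A).card := by
        refine Finset.card_le_card fun y hy => ?_
        rw [Finset.mem_filter]
        refine ⟨Finset.mem_univ _, ?_⟩
        rcases y with i | i
        · have := (Finset.mem_filter.1 (Finset.inl_mem_disjSum.1 hy)).2.1
          exact fun h' => hdj _ h' this
        · have := (Finset.mem_filter.1 (Finset.inr_mem_disjSum.1 hy)).2.2
          exact fun h' => hdj _ h' this
      rw [Finset.card_disjSum] at e2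
      have e3 : A ∩ Finset.univ.image τ = (Finset.univ.filter fun y => τ y ∈ A).image τ := by
        ext v
        rw [Finset.mem_inter, Finset.mem_image, Finset.mem_image]
        constructor
        · rintro ⟨hv, y, _, rfl⟩
          exact ⟨y, Finset.mem_filter.2 ⟨Finset.mem_univ _, hv⟩, rfl⟩
        · rintro ⟨y, hy, rfl⟩
          exact ⟨(Finset.mem_filter.1 hy).2, y, Finset.mem_univ _, rfl⟩
      have e4 := Finset.card_sdiff_add_card_inter A (Finset.univ.image τ)
      rw [e3, Finset.card_image_of_injective _ hinj] at e4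
      have e5 : (Finset.univ.filter fun y => τ y ∈ A).card + 1 ≤ A.card := by
        have e6 : (Finset.univ.filter fun y => τ y ∈ A).image τ ⊆ A.erase h := by
          intro v hv
          rw [Finset.mem_image] at hv
          obtain ⟨y, hy, rfl⟩ := hv
          exact Finset.mem_erase.2 ⟨hτh y, (Finset.mem_filter.1 hy).2⟩
        have e7 := Finset.card_le_card e6
        rw [Finset.card_image_of_injective _ hinj, Finset.card_erase_of_mem hhA] at e7
        have e8 := Finset.card_pos.2 ⟨h, hhA⟩
        omega
      omega
  · push Not at hf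
    by_cases hp : ∃ i, s i ∉ A ∧ t i ∉ A
    · -- one pair outside the hubs
      obtain ⟨i0, hs0, ht0⟩ := hp
      have hne : s i0 ≠ t i0 := by
        intro h
        have := @hst (Sum.inl i0) (Sum.inr i0) h
        simp at this
      obtain ⟨C, hC1, hC2, hC3⟩ := detour (G := G) A U (s i0) (t i0) hne hs0 ht0
        (fun Z hZ => hcon Z (by omega))
      -- all the other terminals are hubs
      have hall : ∀ y, y ≠ Sum.inl i0 → y ≠ Sum.inr i0 → Sum.elim s t y ∈ A := by
        have e1 : A ⊆ (Finset.univ.filter fun y => Sum.elim s t y ∈ A).image (Sum.elim s t) := by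
          intro a ha
          obtain ⟨y, hy⟩ := hf a ha
          rw [Finset.mem_image]
          exact ⟨y, Finset.mem_filter.2 ⟨Finset.mem_univ _, hy ▸ ha⟩, hy⟩
        have e2 := (Finset.card_le_card e1).trans Finset.card_image_le
        intro y hy1 hy2
        by_contra hy3
        have e3 : (Finset.univ.filter fun y => Sum.elim s t y ∈ A).card + 3 ≤ Fintype.card (Fin k ⊕ Fin k) := by
          have e4 : ({Sum.inl i0, Sum.inr i0, y} : Finset (Fin k ⊕ Fin k)).card = 3 := by
            rw [Finset.card_eq_three]
            exact ⟨_, _, _, by simp, fun h => hy1 h.symm, fun h => hy2 h.symm, rfl⟩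
          have e5 : Disjoint (Finset.univ.filter fun y => Sum.elim s t y ∈ A)
              ({Sum.inl i0, Sum.inr i0, y} : Finset (Fin k ⊕ Fin k)) := by
            rw [Finset.disjoint_left]
            intro z hz hz'
            have hz := (Finset.mem_filter.1 hz).2
            simp only [Finset.mem_insert, Finset.mem_singleton] at hz'
            rcases hz' with rfl | rfl | rfl
            · exact hs0 hz
            · exact ht0 hz
            · exact hy3 hz
          have e6 := Finset.card_le_univ ((Finset.univ.filter fun y => Sum.elim s t y ∈ A) ∪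
            ({Sum.inl i0, Sum.inr i0, y} : Finset (Fin k ⊕ Fin k)))
          rw [Finset.card_union_of_disjoint e5, e4] at e6
          exact e6
        omega
      obtain ⟨f⟩ : Nonempty ({i // i ∈ (Finset.univ : Finset (Fin k)).erase i0} ↪ {u // u ∈ U \ C}) := by
        apply Function.Embedding.nonempty_of_card_le
        rw [Fintype.card_coe, Fintype.card_coe, Finset.card_erase_of_mem (Finset.mem_univ _), Finset.card_univ,
          Fintype.card_fin]
        have := i0.isLt
        omega
      have hf' : ∀ z, (f z).1 ∈ U ∧ (f z).1 ∉ C := fun z => Finset.mem_sdiff.1 (f z).2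
      obtain ⟨D, hD0, hD⟩ : ∃ D : Fin k → Set V, D i0 = (C : Set V) ∧ ∀ i (hi : i ∈ Finset.univ.erase i0) (v : V),
          v ∈ D i ↔ v = s i ∨ v = t i ∨ v = (f ⟨i, hi⟩).1 := by
        refine ⟨fun i => if hi : i ∈ Finset.univ.erase i0 then {v | v = s i ∨ v = t i ∨ v = (f ⟨i, hi⟩).1}
          else (C : Set V), ?_, ?_⟩
        · simp
        · intro i hi v
          simp only [hi, dif_pos]
          exact Iff.rfl
      have hsA : ∀ i, i ≠ i0 → s i ∈ A := fun i hi =>
        hall (Sum.inl i) (fun h => hi (Sum.inl_injective h)) (by simp)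
      have htA : ∀ i, i ≠ i0 → t i ∈ A := fun i hi =>
        hall (Sum.inr i) (by simp) (fun h => hi (Sum.inr_injective h))
      have hm : ∀ i, i ≠ i0 → i ∈ (Finset.univ : Finset (Fin k)).erase i0 := fun i hi =>
        Finset.mem_erase.2 ⟨hi, Finset.mem_univ _⟩
      have hCD : ∀ i, i ≠ i0 → ∀ v ∈ D i, v ∉ D i0 := by
        intro i hi v hv hv0
        rw [hD0, Finset.mem_coe] at hv0
        rcases (hD i (hm i hi) v).1 hv with rfl | rfl | rfl
        · exact hC2 _ hv0 (hsA i hi)
        · exact hC2 _ hv0 (htA i hi)
        · exact (hf' _).2 hv0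
      refine paths_of_sets s t D (fun i => ?_) fun i j hij v hv hv' => ?_
      · by_cases hi : i = i0
        · subst hi
          rw [hD0]
          exact hC1
        · have m1 : s i ∈ D i := (hD i (hm i hi) _).2 (Or.inl rfl)
          have m2 : t i ∈ D i := (hD i (hm i hi) _).2 (Or.inr (Or.inl rfl))
          have m3 : (f ⟨i, hm i hi⟩).1 ∈ D i := (hD i (hm i hi) _).2 (Or.inr (Or.inr rfl))
          exact (Jn.of_adj (hAU _ (hsA i hi) _ (hf' _).1) m1 m3).trans
            (Jn.of_adj (hAU _ (htA i hi) _ (hf' _).1).symm m3 m2)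
      · by_cases hi : i = i0
        · subst hi
          exact hCD j (fun h => hij h.symm) v hv' hv
        · by_cases hj : j = i0
          · subst hj
            exact hCD i hi v hv hv'
          · rcases (hD i (hm i hi) v).1 hv with h1 | h1 | h1 <;> rcases (hD j (hm j hj) v).1 hv' with h2 | h2 | h2
            · exact hij (Sum.inl_injective (@hst (Sum.inl i) (Sum.inl j) (h1.symm.trans h2)))
            · have := @hst (Sum.inl i) (Sum.inr j) (h1.symm.trans h2)
              simp at this
            · exact hdj v (h1 ▸ hsA i hi) (h2 ▸ (hf' _).1)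
            · have := @hst (Sum.inr i) (Sum.inl j) (h1.symm.trans h2)
              simp at this
            · exact hij (Sum.inr_injective (@hst (Sum.inr i) (Sum.inr j) (h1.symm.trans h2)))
            · exact hdj v (h1 ▸ htA i hi) (h2 ▸ (hf' _).1)
            · exact hdj v (h2 ▸ hsA j hj) (h1 ▸ (hf' _).1)
            · exact hdj v (h2 ▸ htA j hj) (h1 ▸ (hf' _).1)
            · have := f.injective (Subtype.ext (h1.symm.trans h2))
              exact hij (congrArg Subtype.val this)
    · -- every pair meets the hubs
      push Not at hp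
      obtain ⟨P, τ, h1, h2, h3, h4, h5, _, h7⟩ := tokens (G := G) ∅ (A ∪ U) (Sum.elim s t) hst
        (fun y => by simp) (fun v hv => by simp) (by rw [hcard, hcardAU]; omega)
        (fun Z hZ => hcon Z (by rw [hcard, Finset.card_empty] at hZ; omega))
      refine join_tokens A U hAU s t P τ h1 h2 (fun y => Finset.mem_union.1 (h3 y)) ?_ h5 h7 hU ?_
      · intro y v hv hvAU
        exact h4 y v hv (Finset.mem_union.2 hvAU)
      · rw [Finset.card_eq_zero.2]
        · exact Nat.zero_le _
        · rw [Finset.filter_eq_empty_iff]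
          rintro i _ ⟨h8, h9⟩
          by_cases hsi : s i ∈ A
          · have : s i = τ (Sum.inl i) := h4 (Sum.inl i) _ (h1 _) (Finset.mem_union_left _ hsi)
            rw [← this] at h8
            exact hdj _ hsi h8
          · have hti := hp i hsi
            have : t i = τ (Sum.inr i) := h4 (Sum.inr i) _ (h1 _) (Finset.mem_union_left _ hti)
            rw [← this] at h9
            exact hdj _ hti h9

end Pool.Agent.Results.MP_e4231c_co.CommonNeighbours
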