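import Mathlib
import Pool.Agent.LNK.Fault

/-!
Large 2k-connected graphs whose diameter stays bounded when at most 2k - 2 vertices are deleted are k-linked.
-/

set_option autoImplicit false

namespace Pool.Agent.Results.MP_e4231c_co.FaultDiameter

open SimpleGraph Pool.Agent.LNK

/-- For all `k` and `d` there is `N` such that every finite graph `G` with at least `N` vertices which is
`2k`-connected, and in which any two vertices of `G - S` are at distance at most `d` in `G - S` for every set
`S` of at most `2k - 2` vertices, is `k`-linked. -/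
theorem result : ∀ k d : ℕ, ∃ N : ℕ, ∀ (V : Type) [Fintype V] (G : SimpleGraph V),
    N ≤ Fintype.card V →
    (2 * k < Fintype.card V ∧
      ∀ S : Finset V, S.card < 2 * k → (G.induce ((S : Set V)ᶜ)).Connected) →
    (∀ S : Finset V, S.card + 2 ≤ 2 * k →
      ∀ u v : ((S : Set V)ᶜ : Set V), (G.induce ((S : Set V)ᶜ)).dist u v ≤ d) →
    ∀ s t : Fin k → V, Function.Injective (Sum.elim s t) →
      ∃ p : ∀ i, G.Walk (s i) (t i),
        (∀ i, (p i).IsPath) ∧
        ∀ i j, i ≠ j → ∀ v, v ∈ (p i).support → v ∉ (p j).support := by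
  intro k d
  rcases Nat.eq_zero_or_pos k with rfl | hk
  · exact ⟨0, fun V _ G _ _ _ s t _ => ⟨fun i => i.elim0, fun i => i.elim0, fun i => i.elim0⟩⟩
  obtain ⟨N, hN⟩ := hubs d (2 * k - 1) (2 * k ^ 2 + 4 * k)
  refine ⟨N, ?_⟩
  intro V _ G hV hG hd s t hst
  obtain ⟨A, hA, B, hB, hadj⟩ := hN V G hV (by
    intro S hS u v hu hv
    have hc := hG.2 S (by omega)
    have hu' : u ∈ ((S : Set V)ᶜ : Set V) := by simpa using hu
    have hv' : v ∈ ((S : Set V)ᶜ : Set V) := by simpa using hv
    obtain ⟨w, hw⟩ := hc.exists_walk_length_eq_dist ⟨u, hu'⟩ ⟨v, hv'⟩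
    have h1 := hd S (by omega) ⟨u, hu'⟩ ⟨v, hv'⟩
    refine ⟨w.map (Embedding.induce ((S : Set V)ᶜ)).toHom, ?_, ?_⟩
    · erw [Walk.length_map]
      omega
    · intro x hx
      erw [Walk.support_map] at hx
      rw [List.mem_map] at hx
      obtain ⟨y, _, rfl⟩ := hx
      exact fun hyS => y.2 (Finset.mem_coe.2 hyS))
  have h : Hyp G (A : Set V) fun j => ((B j : Finset V) : Set V) := by
    refine ⟨?_, ?_, ?_, ?_⟩
    · intro i j hij v hv hv'
      exact hB.disj i j hij v (by simpa using hv) (by simpa using hv')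
    · intro j a ha hab
      exact hB.sub j a (by simpa using hab) (by simpa using ha)
    · intro j u hu v hv
      exact hB.conn j u (by simpa using hu) v (by simpa using hv)
    · intro j a ha
      obtain ⟨u, hu, hau⟩ := hadj j a (by simpa using ha)
      exact ⟨u, by simpa using hu, hau⟩
  refine rooted (ι := Fin (2 * k ^ 2 + 4 * k)) hk (by simp) ?_ (A := (A : Set V)) ?_ h ?_ s t hst
  · intro Z hZ u v hu hv
    exact jn_of_connected (hG.2 Z hZ) (by simpa using hu) (by simpa using hv)
  · rw [Set.ncard_coe_finset, hA]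
    omega
  · intro j
    obtain ⟨v, hv⟩ := hB.ne j
    exact ⟨v, by simpa using hv⟩

end Pool.Agent.Results.MP_e4231c_co.FaultDiameter
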