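import Mathlib
import Pool.Agent.LNK.Rooted

/-!
A 2k-connected graph with 2k - 1 hubs and many disjoint connected leaves, each adjacent to all hubs, is k-linked.
-/

set_option autoImplicit false

namespace Pool.Agent.Results.MP_e4231c_co.HubsAndLeaves

open SimpleGraph Pool.Agent.LNK

/-- Let `G` be a finite graph which is `2k`-connected, `A` a set of `2k - 1` vertices and `B 0, ..., B (N - 1)`
pairwise disjoint connected vertex sets disjoint from `A`, such that every vertex of `A` has a neighbour in
every `B j`. If `N ≥ 2k² + 4k` then `G` is `k`-linked. -/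
theorem result (k N : ℕ) (hN : 2 * k ^ 2 + 4 * k ≤ N) (V : Type) [Fintype V] (G : SimpleGraph V)
    (hG : 2 * k < Fintype.card V ∧
      ∀ S : Finset V, S.card < 2 * k → (G.induce ((S : Set V)ᶜ)).Connected)
    (A : Finset V) (hA : A.card = 2 * k - 1) (B : Fin N → Set V)
    (hdisj : ∀ i j, i ≠ j → Disjoint (B i) (B j)) (hAB : ∀ j, Disjoint (A : Set V) (B j))
    (hconn : ∀ j, (G.induce (B j)).Connected) (hadj : ∀ j, ∀ a ∈ A, ∃ b ∈ B j, G.Adj a b) :
    ∀ s t : Fin k → V, Function.Injective (Sum.elim s t) →
      ∃ p : ∀ i, G.Walk (s i) (t i),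
        (∀ i, (p i).IsPath) ∧
        ∀ i j, i ≠ j → ∀ v, v ∈ (p i).support → v ∉ (p j).support := by
  intro s t hst
  rcases Nat.eq_zero_or_pos k with rfl | hk
  · exact ⟨fun i => i.elim0, fun i => i.elim0, fun i => i.elim0⟩
  have hne : ∀ j, (B j).Nonempty := by
    intro j
    obtain ⟨v⟩ := (hconn j).nonempty
    exact ⟨v.1, v.2⟩
  have h : Hyp G (A : Set V) B := by
    refine ⟨?_, ?_, ?_, ?_⟩
    · intro i j hij v hv hv'
      exact Set.disjoint_left.1 (hdisj i j hij) hv hv'
    · intro j a ha hab
      exact Set.disjoint_left.1 (hAB j) ha hab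
    · intro j u hu v hv
      exact jn_of_connected (hconn j) hu hv
    · intro j a ha
      exact hadj j a (by simpa using ha)
  refine rooted (ι := Fin N) hk (by simpa using hN) ?_ (A := (A : Set V)) ?_ h hne s t hst
  · intro Z hZ u v hu hv
    exact jn_of_connected (hG.2 Z hZ) (by simpa using hu) (by simpa using hv)
  · rw [Set.ncard_coe_finset, hA]
    omega

end Pool.Agent.Results.MP_e4231c_co.HubsAndLeaves
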