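import Mathlib
import Pool.Agent.JNG.CFN

/-!
Large (2k+2)-connected graphs with 2k - 3 vertices that have many common neighbours are k-linked.
-/

set_option autoImplicit false

namespace Pool.Agent.Results.MP_e4231c_co.ManyCommonNeighbours

open SimpleGraph

/-- For every `k` there is `N` such that every finite `(2k+2)-connected` graph `G` that has a set `A` of
`2k - 3` vertices with at least `N` common neighbours is `k`-linked. -/
theorem result : ∀ k : ℕ, ∃ N : ℕ, ∀ (V : Type) [Fintype V] (G : SimpleGraph V),
    (2 * k + 2 < Fintype.card V ∧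
      ∀ S : Finset V, S.card < 2 * k + 2 → (G.induce ((S : Set V)ᶜ)).Connected) →
    ∀ A U : Finset V, A.card + 3 = 2 * k → N ≤ U.card → (∀ a ∈ A, ∀ u ∈ U, G.Adj a u) →
    ∀ s t : Fin k → V, Function.Injective (Sum.elim s t) →
      ∃ p : ∀ i, G.Walk (s i) (t i),
        (∀ i, (p i).IsPath) ∧
        ∀ i j, i ≠ j → ∀ v, v ∈ (p i).support → v ∉ (p j).support :=
  Pool.Agent.JNG.hubs3

end Pool.Agent.Results.MP_e4231c_co.ManyCommonNeighbours
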